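import Pool.Agent.Lib.stark.Asm

open NumberField

namespace Pool.Agent.Results.MP_6bf7a3_nt.Full

open Pool.Agent.Lib.MP_6bf7a3_nt

/-- The monoid Stark conjecture holds for every order `O` of every real quadratic field `K` and
every nonzero proper ideal `m` of `O`. -/
theorem result (K : Type) [Field K] [NumberField K] [Algebra K ℝ] (σ₂ : K →+* ℝ)
    (hK : Module.finrank ℚ K = 2) (hσ : σ₂ ≠ algebraMap K ℝ)
    (O : Type) [CommRing O] [Algebra O K] [IsFractionRing O K] [Algebra O (𝓞 K)]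
    [IsScalarTower O (𝓞 K) K] (m : Ideal O) (hm0 : m ≠ ⊥) (hm1 : m ≠ ⊤) : MSC σ₂ m :=
  (tateStark_iff hK hσ ⊥).1 (fun n h0 h1 _ => Pool.Agent.Lib.Stark.final K σ₂ hK hσ n h0 h1)
    O m hm0 hm1 (dvd_zero _)

end Pool.Agent.Results.MP_6bf7a3_nt.Full
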